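import Mathlib
import Pool.Agent.Helper7.SqClass

set_option autoImplicit false

namespace Pool.Agent.Results.MP_0951fc_nt.LowDegreeExtension

open Pool.Agent.Helper7.Dio

/-- Let `g` be a representation of the induced graph `G[K]` in which no product of two labels is a
square.  If every nonempty set `T` of vertices outside `K` has a vertex with at most two neighbours
in `T ∪ K`, then `g` extends to such a representation of `G`.  (The labels are then automatically
different, since `f u = f v` would make `f u * f v` a square.) -/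
theorem result (V : Type) [Fintype V] (G : SimpleGraph V) (K : Set V) (g : V → ℕ)
    (hpos : ∀ v ∈ K, 0 < g v)
    (hadj : ∀ u ∈ K, ∀ v ∈ K, u ≠ v → (G.Adj u v ↔ IsSquare (g u * g v + 1)))
    (hsq : ∀ u ∈ K, ∀ v ∈ K, u ≠ v → ¬ IsSquare (g u * g v))
    (h2 : ∀ T : Set V, T.Nonempty → Disjoint T K →
      ∃ v ∈ T, (G.neighborSet v ∩ (T ∪ K)).ncard ≤ 2) :
    ∃ f : V → ℕ, (∀ v ∈ K, f v = g v) ∧ (∀ v, 0 < f v) ∧
      (∀ u v : V, u ≠ v → (G.Adj u v ↔ IsSquare (f u * f v + 1))) ∧
      ∀ u v : V, u ≠ v → ¬ IsSquare (f u * f v) := by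
  classical
  set S : Finset V := K.toFinset with hS
  have hmem : ∀ v, v ∈ S ↔ v ∈ K := fun v => Set.mem_toFinset
  have hcast : ∀ (a b c : ℕ), IsSquare ((a : ℤ) * b + c) ↔ IsSquare (a * b + c) := by
    intro a b c
    have := isSquare_toNat_mul (a := (a : ℤ)) (b := (b : ℤ)) (by positivity) (by positivity) c
    simpa using this.symm
  have hrep : Rep G S (fun v => (g v : ℤ)) := by
    refine ⟨?_, ?_, ?_⟩
    · intro u hu
      have := hpos u ((hmem u).1 hu)
      exact_mod_cast this
    · intro u hu v hv huv
      rw [hadj u ((hmem u).1 hu) v ((hmem v).1 hv) huv]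
      have := hcast (g u) (g v) 1
      simpa using this.symm
    · intro u hu v hv huv
      have h1 := hsq u ((hmem u).1 hu) v ((hmem v).1 hv) huv
      have := hcast (g u) (g v) 0
      simp only [Nat.cast_zero, add_zero] at this
      rw [this]
      exact h1
  obtain ⟨f, hf, hfS⟩ := hrep.build _ (Finset.univ \ S) rfl Finset.sdiff_disjoint (by
    intro T hT hne
    obtain ⟨v, hv, hv2⟩ := h2 (T : Set V) (by exact_mod_cast hne) (by
      rw [Set.disjoint_left]
      intro x hx hxK
      exact (Finset.mem_sdiff.1 (hT (by exact_mod_cast hx))).2 ((hmem x).2 hxK))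
    refine ⟨v, by exact_mod_cast hv, ?_⟩
    rw [← Set.ncard_coe_finset]
    refine le_trans (le_of_eq ?_) hv2
    congr 1
    ext w
    simp only [Finset.coe_filter, Finset.mem_union, Set.mem_ofPred_eq, Set.mem_inter_iff,
      SimpleGraph.mem_neighborSet, Set.mem_union, Finset.mem_coe, hmem]
    tauto)
  have huniv : Finset.univ \ S ∪ S = Finset.univ := by
    rw [Finset.sdiff_union_self_eq_union]
    exact Finset.eq_univ_of_forall fun x => Finset.mem_union_left _ (Finset.mem_univ x)
  rw [huniv] at hf
  have hf0 : ∀ v, 0 < f v := fun v => hf.pos v (Finset.mem_univ v)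
  refine ⟨fun v => (f v).toNat, ?_, ?_, ?_, ?_⟩
  · intro v hv
    simp only
    rw [hfS v ((hmem v).2 hv)]
    simp
  · intro v
    have := hf0 v
    simp only
    omega
  · intro u v huv
    rw [hf.adj u (Finset.mem_univ u) v (Finset.mem_univ v) huv]
    have := isSquare_toNat_mul (hf0 u).le (hf0 v).le 1
    simpa using this.symm
  · intro u v huv h1
    apply hf.nsq u (Finset.mem_univ u) v (Finset.mem_univ v) huv
    have := isSquare_toNat_mul (hf0 u).le (hf0 v).le 0
    simp only [add_zero, Nat.cast_zero] at this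
    exact this.1 h1

end Pool.Agent.Results.MP_0951fc_nt.LowDegreeExtension
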