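import Mathlib
import Pool.Agent.Tri.IncidSq

set_option autoImplicit false

namespace Pool.Agent.Results.MP_0951fc_nt.RationalIncidence

open Pool.Agent.Helper7.Dio

/-- The incidence graph of a finite set `P` of points `(px, py)` and a finite set `L` of
non-vertical lines `y = s x + t` of the rational plane has a representation `f` (on the points),
`g` (on the lines) in which no product of two labels is a square. -/
theorem result (P L : Type) [Fintype P] [Fintype L] (px py : P → ℚ) (s t : L → ℚ)
    (hP : ∀ p q : P, px p = px q → py p = py q → p = q)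
    (hL : ∀ l m : L, s l = s m → t l = t m → l = m) :
    ∃ (f : P → ℕ) (g : L → ℕ), (∀ p, 0 < f p) ∧ (∀ l, 0 < g l) ∧
      (∀ p l, IsSquare (f p * g l + 1) ↔ py p = s l * px p + t l) ∧
      (∀ p q, p ≠ q → ¬ IsSquare (f p * f q + 1)) ∧
      (∀ l m, l ≠ m → ¬ IsSquare (g l * g m + 1)) ∧
      (∀ p q, p ≠ q → ¬ IsSquare (f p * f q)) ∧
      (∀ l m, l ≠ m → ¬ IsSquare (g l * g m)) ∧ ∀ p l, ¬ IsSquare (f p * g l) := by
  classical
  obtain ⟨px', py', s', t', hP', hL', hinc⟩ := Tri.exists_slopes px py s t hP hL
  let G : SimpleGraph (P ⊕ L) :=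
    { Adj := fun u v => match u, v with
        | Sum.inl p, Sum.inr l => py' p = s' l * px' p + t' l
        | Sum.inr l, Sum.inl p => py' p = s' l * px' p + t' l
        | _, _ => False
      symm := ⟨by
        rintro (p | l) (q | m) h
        · exact h
        · exact h
        · exact h
        · exact h⟩
      loopless := ⟨by rintro (p | l) h <;> exact h⟩ }
  obtain ⟨v, hv, hpar⟩ := Tri.conf_incid_sq (G := G) (K := Finset.univ) (fun u => u.isLeft = true)
    (fun u => Sum.elim px' s' u) (fun u => Sum.elim py' t' u)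
    (by
      rintro (p | l) _ (q | m) _ h1 h2 h3
      · exact congrArg Sum.inl (hP' p q h2 h3)
      · simp at h1
      · simp at h1
      · exact congrArg Sum.inr (hL' l m h2))
    (by
      rintro (p | l) _ (q | m) _ h1 h2 h3
      · simp at h1
      · simp at h1
      · simp at h2
      · exact congrArg Sum.inr (hL' l m h3))
    (by
      rintro (p | l) _ (q | m) _
      · simp [G]
      · simp [G]
      · simp [G]
      · simp [G])
  obtain ⟨f, hf⟩ := hv.rep hpar
  have hf0 : ∀ u, 0 < f u := fun u => hf.pos u (Finset.mem_univ u)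
  have h0 : ∀ u w, u ≠ w → ¬ IsSquare ((f u).toNat * (f w).toNat) := by
    intro u w huw h1
    apply hf.nsq u (Finset.mem_univ u) w (Finset.mem_univ w) huw
    have := isSquare_toNat_mul (hf0 u).le (hf0 w).le 0
    simp only [add_zero, Nat.cast_zero] at this
    exact this.1 h1
  have h1 : ∀ u w, u ≠ w → (G.Adj u w ↔ IsSquare ((f u).toNat * (f w).toNat + 1)) := by
    intro u w huw
    rw [hf.adj u (Finset.mem_univ u) w (Finset.mem_univ w) huw]
    have := isSquare_toNat_mul (hf0 u).le (hf0 w).le 1
    simpa using this.symm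
  have hne : ∀ (p : P) (l : L), (Sum.inl p : P ⊕ L) ≠ Sum.inr l := fun p l h => by simp at h
  refine ⟨fun p => (f (Sum.inl p)).toNat, fun l => (f (Sum.inr l)).toNat, ?_, ?_, ?_, ?_, ?_,
    ?_, ?_, ?_⟩
  · intro p
    have := hf0 (Sum.inl p)
    simp only
    omega
  · intro l
    have := hf0 (Sum.inr l)
    simp only
    omega
  · intro p l
    rw [← hinc p l, ← h1 _ _ (hne p l)]
  · intro p q hpq h
    exact (h1 (Sum.inl p) (Sum.inl q) (by simpa using hpq)).2 h
  · intro l m hlm h
    exact (h1 (Sum.inr l) (Sum.inr m) (by simpa using hlm)).2 h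
  · intro p q hpq
    exact h0 _ _ (by simpa using hpq)
  · intro l m hlm
    exact h0 _ _ (by simpa using hlm)
  · intro p l
    exact h0 _ _ (hne p l)

end Pool.Agent.Results.MP_0951fc_nt.RationalIncidence
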